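import Pool.Agent.MWKP.Stmts

/-!
# MWKP row KCL (helper74)

Closed factors depend only on their letters and the numbers modulo `n`.
-/

set_option autoImplicit false

namespace Pool.Agent.MWKP.H74

open Pool.Agent.Helper14_MV Pool.Agent.Helper2_MV Pool.Agent.MWK Pool.Agent.MWKP

theorem rtrans {θ : FIC} {a b c : List ℕ} (h : RR θ a b) (h' : RR θ b c) : RR θ a c :=
  θ.trans h h'

/-- the product of `l^(2n)`, `l ∈ L` -/
def E (n : ℕ) (L : List ℕ) : List ℕ := L.flatMap (fun l => List.replicate (2 * n) l)

theorem E_cons (n z : ℕ) (Z : List ℕ) : E n (z :: Z) = List.replicate (2 * n) z ++ E n Z := rfl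

theorem count_E (n : ℕ) (L : List ℕ) (c : ℕ) : (E n L).count c = 2 * n * L.count c := by
  induction L with
  | nil => rfl
  | cons a l ih =>
    rw [E_cons, List.count_append, ih, List.count_replicate]
    by_cases h : a = c
    · subst h
      rw [List.count_cons_self]
      simp
      ring
    · rw [List.count_cons_of_ne h]
      have h1 : (a == c) = false := by simpa using h
      simp [h1]

theorem mem_E {n : ℕ} {L : List ℕ} {c : ℕ} (h : c ∈ E n L) : c ∈ L := by
  unfold E at h
  rw [List.mem_flatMap] at h
  obtain ⟨a, ha, hc⟩ := h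
  rw [List.eq_of_mem_replicate hc]
  exact ha

/-- `x^2 ~ x^(n+2)` -/
theorem sq {n : ℕ} {θ : FIC} (hK : Kn n θ) (x : ℕ) :
    RR θ (List.replicate 2 x) (List.replicate (2 + n) x) := by
  have h := hK.g.sub (fun c => if c = 0 then [x] else [])
  have e1 : List.flatMap (fun c => if c = 0 then [x] else []) [0, 1, 0] = List.replicate 2 x := by
    simp [List.replicate]
  have e3 : ∀ m : ℕ, List.flatMap (fun c => if c = 0 then [x] else []) (List.replicate m 0) =
      List.replicate m x := by
    intro m
    induction m with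
    | zero => rfl
    | succ m ih =>
      rw [List.replicate_succ, List.flatMap_cons, ih, List.replicate_succ]
      simp
  have e2 : List.flatMap (fun c => if c = 0 then [x] else [])
      (0 :: 1 :: List.replicate (n + 1) 0) = List.replicate (2 + n) x := by
    rw [List.flatMap_cons, List.flatMap_cons, e3]
    simp only [if_true, if_neg (Nat.one_ne_zero), List.nil_append]
    rw [show 2 + n = (n + 1) + 1 from by ring, List.replicate_succ (n := n + 1)]
    rfl
  rw [e1, e2] at h
  exact h

theorem pwr {n : ℕ} {θ : FIC} (hK : Kn n θ) (x i : ℕ) (hi : 2 ≤ i) (k : ℕ) :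
    RR θ (List.replicate i x) (List.replicate (i + n * k) x) := by
  induction k with
  | zero => exact RR.refl _
  | succ k ih =>
    have h := (sq hK x).append (RR.refl (β := θ) (List.replicate (i + n * k - 2) x))
    rw [← List.replicate_add, ← List.replicate_add] at h
    rw [show 2 + (i + n * k - 2) = i + n * k from by omega,
      show 2 + n + (i + n * k - 2) = i + n * (k + 1) from by
        rw [Nat.mul_succ]; omega] at h
    exact rtrans ih h

/-- `x^a y^b ~ y^b x^a` for `a, b ≥ 2` -/
theorem com2 {n : ℕ} {θ : FIC} (hK : Kn n θ) (x y a b : ℕ) (ha : 2 ≤ a) (hb : 2 ≤ b) :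
    RR θ (List.replicate a x ++ List.replicate b y) (List.replicate b y ++ List.replicate a x) := by
  have h := hK.c.sub (fun c => if c = 0 then List.replicate a x else List.replicate b y)
  have e0 : ∀ m : ℕ, List.flatMap (fun c => if c = 0 then List.replicate a x else
      List.replicate b y) (List.replicate m 0) = List.replicate (a * m) x := by
    intro m
    induction m with
    | zero => rfl
    | succ m ih =>
      rw [List.replicate_succ, List.flatMap_cons, ih, if_pos rfl, ← List.replicate_add,
        Nat.mul_succ, Nat.add_comm]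
  have e1 : ∀ m : ℕ, List.flatMap (fun c => if c = 0 then List.replicate a x else
      List.replicate b y) (List.replicate m 1) = List.replicate (b * m) y := by
    intro m
    induction m with
    | zero => rfl
    | succ m ih =>
      rw [List.replicate_succ, List.flatMap_cons, ih, if_neg Nat.one_ne_zero,
        ← List.replicate_add, Nat.mul_succ, Nat.add_comm]
  rw [List.flatMap_append, List.flatMap_append, e0, e1] at h
  have hx := pwr hK x a ha a
  have hy := pwr hK y b hb b
  rw [show a + n * a = a * (n + 1) from by ring] at hx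
  rw [show b + n * b = b * (n + 1) from by ring] at hy
  exact rtrans (hx.append hy) (rtrans h (hy.symm.append hx.symm))

theorem comE {n : ℕ} {θ : FIC} (hK : Kn n θ) (x a : ℕ) (ha : 2 ≤ a) : ∀ Z : List ℕ,
    RR θ (List.replicate a x ++ E n Z) (E n Z ++ List.replicate a x)
  | [] => by
    change RR θ (List.replicate a x ++ []) ([] ++ List.replicate a x)
    rw [List.append_nil, List.nil_append]
    exact RR.refl _
  | z :: Z => by
    have hn := hK.pos
    rw [E_cons]
    have ih := comE hK x a ha Z
    have h1 := (com2 hK x z a (2 * n) ha (by omega)).append (RR.refl (β := θ) (E n Z))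
    have h2 := (RR.refl (β := θ) (List.replicate (2 * n) z)).append ih
    rw [List.append_assoc, List.append_assoc] at h1
    rw [← List.append_assoc _ (E n Z) (List.replicate a x)] at h2
    exact rtrans h1 h2

theorem absE {n : ℕ} {θ : FIC} (hK : Kn n θ) {l : ℕ} : ∀ {Z : List ℕ}, l ∈ Z →
    RR θ (List.replicate (2 * n) l ++ E n Z) (E n Z)
  | [], h => by simp at h
  | z :: Z, h => by
    have hn := hK.pos
    rw [E_cons]
    by_cases hz : l = z
    · subst hz
      have h1 := (pwr hK l (2 * n) (by omega) 2).symm.append (RR.refl (β := θ) (E n Z))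
      rw [show 2 * n + n * 2 = 2 * n + 2 * n from by ring, List.replicate_add,
        List.append_assoc] at h1
      exact h1
    · have ih := absE hK ((List.mem_cons.1 h).resolve_left hz)
      have h1 := (com2 hK l z (2 * n) (2 * n) (by omega) (by omega)).append
        (RR.refl (β := θ) (E n Z))
      rw [List.append_assoc, List.append_assoc] at h1
      exact rtrans h1 ((RR.refl _).append ih)

theorem mvE {n : ℕ} {θ : FIC} (hK : Kn n θ) {l : ℕ} {Z : List ℕ} (h : l ∈ Z) :
    RR θ ([l] ++ E n Z) (E n Z ++ [l]) := by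
  have hn := hK.pos
  have h1 : RR θ ([l] ++ E n Z) ([l] ++ (List.replicate (2 * n) l ++ E n Z)) :=
    (RR.refl _).append (absE hK h).symm
  have h2 := comE hK l (2 * n + 1) (by omega) Z
  have e1 : [l] ++ (List.replicate (2 * n) l ++ E n Z) =
      List.replicate (2 * n + 1) l ++ E n Z := by
    rw [List.replicate_succ]
    rfl
  have e2 : E n Z ++ List.replicate (2 * n + 1) l = (E n Z ++ List.replicate (2 * n) l) ++ [l] := by
    rw [List.replicate_succ', List.append_assoc]
  rw [e1] at h1
  rw [e2] at h2
  have h3 : RR θ ((E n Z ++ List.replicate (2 * n) l) ++ [l])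
      ((List.replicate (2 * n) l ++ E n Z) ++ [l]) :=
    (comE hK l (2 * n) (by omega) Z).symm.append (RR.refl _)
  have h4 : RR θ ((List.replicate (2 * n) l ++ E n Z) ++ [l]) (E n Z ++ [l]) :=
    (absE hK h).append (RR.refl _)
  exact rtrans h1 (rtrans h2 (rtrans h3 h4))

theorem mvW {n : ℕ} {θ : FIC} (hK : Kn n θ) {Z : List ℕ} : ∀ {W : List ℕ}, (∀ l ∈ W, l ∈ Z) →
    RR θ (W ++ E n Z) (E n Z ++ W)
  | [], _ => by
    rw [List.nil_append, List.append_nil]
    exact RR.refl _
  | m :: M, h => by
    have ih := mvW hK (W := M) (fun l hl => h l (List.mem_cons_of_mem _ hl))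
    have h1 : RR θ ([m] ++ (M ++ E n Z)) ([m] ++ (E n Z ++ M)) := (RR.refl _).append ih
    have h2 := (mvE hK (h m (List.mem_cons_self ..))).append (RR.refl (β := θ) M)
    rw [List.append_assoc, List.append_assoc] at h2
    exact rtrans h1 h2

/-- **KCL** -/
theorem kcl (hkdd : KddStmt) : KclStmt := by
  intro n θ hK P Z Z' Q h hZ hZ' hc
  have hn := hK.pos
  have hE : ∀ l ∈ E n Z, l ∈ Z := fun l hl => mem_E hl
  have key : ∀ W : List ℕ, (∀ l, l ∈ Z ↔ l ∈ W) → (∀ l ∈ W, 2 ≤ (P ++ W).count l) →
      RR θ (P ++ W ++ Q) (P ++ (E n Z ++ W) ++ Q) := by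
    intro W hW hW2
    have h1 := hkdd n θ hK (P ++ W) [] (E n Z) Q (by simp)
      (fun l hl => hW2 l ((hW l).1 (hE l hl)))
      (fun l => by
        rw [count_E, List.count_nil]
        exact (Nat.modEq_zero_iff_dvd.2 ⟨2 * Z.count l, by ring⟩).symm)
    rw [List.append_nil] at h1
    have h2 : RR θ (P ++ (W ++ E n Z) ++ Q) (P ++ (E n Z ++ W) ++ Q) :=
      ((RR.refl P).append (mvW hK (fun l hl => (hW l).2 hl))).append (RR.refl Q)
    rw [← List.append_assoc P W] at h2
    exact rtrans h1 h2
  have h1 := key Z (fun _ => Iff.rfl) hZ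
  have h2 := key Z' h hZ'
  have h3 := hkdd n θ hK (P ++ E n Z) Z Z' Q
    (fun l hl => by
      rw [List.count_append, count_E]
      have : 1 ≤ Z.count l := List.count_pos_iff.2 hl
      have : 2 * 1 ≤ 2 * n * Z.count l := Nat.mul_le_mul (by omega) this
      omega)
    (fun l hl => by
      rw [List.count_append, count_E]
      have : 1 ≤ Z.count l := List.count_pos_iff.2 ((h l).2 hl)
      have : 2 * 1 ≤ 2 * n * Z.count l := Nat.mul_le_mul (by omega) this
      omega) hc
  rw [List.append_assoc P, List.append_assoc P (E n Z) Z'] at h3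
  exact rtrans h1 (rtrans h3 h2.symm)

end Pool.Agent.MWKP.H74
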